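import Mathlib
import Pool.Agent.R812.CkSum

/-!
# The class `C_k[M]` is not closed under topological sums
-/

set_option autoImplicit false

open Set TopologicalSpace Topology

namespace Pool.Agent.Results.MP_041d76_gt.SumFails

universe u v w

/-- the class `C_k[M]`: all spaces which embed into `C_k(X, Y)`, the space of all continuous maps
from `X` to `Y` with the compact-open topology, for some separable metrizable space `X` and some
metrizable space `Y` -/
def InCkM (E : Type w) [TopologicalSpace E] : Prop :=
  ∃ (X : Type u) (Y : Type v) (_ : TopologicalSpace X) (_ : TopologicalSpace Y),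
    MetrizableSpace X ∧ SeparableSpace X ∧ MetrizableSpace Y ∧ ∃ f : E → C(X, Y), IsEmbedding f

/-- There is a family of spaces in the class `C_k[M]` whose topological sum is not in this class. -/
theorem result : ∃ (I : Type) (E : I → Type) (_ : ∀ i, TopologicalSpace (E i)),
    (∀ i, InCkM.{0, 0, 0} (E i)) ∧ ¬ InCkM.{u, v, 0} (Σ i, E i) := by
  refine ⟨Set (Set.Icc (0 : ℝ) 1), fun Z => C(Z, ℝ), fun Z => inferInstance, fun Z => ?_, ?_⟩
  · exact ⟨Z, ℝ, inferInstance, inferInstance, inferInstance, inferInstance, inferInstance, id,
      IsEmbedding.id⟩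
  · rintro ⟨X, Y, _, _, -, _, _, f, hf⟩
    exact Pool.Agent.R812.CkSum.main X Y f hf

end Pool.Agent.Results.MP_041d76_gt.SumFails
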